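import Pool.Agent.H86.MssE

set_option autoImplicit false

namespace Pool.Agent.Results.MP_7884fa_an.Embed

open Pool.Agent.H86.Gh

theorem result (X Y : Type) [MetricSpace X] [MetricSpace Y] (hX : ULF X) (hY : ULF Y)
    (f : Y → X) (hf : CoarseEmb f) :
    OnlyCompact X → OnlyCompact Y :=
  have _ := hX
  main hY f hf.ctrl.1 hf.ctrl.2

end Pool.Agent.Results.MP_7884fa_an.Embed
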